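import Pool.Agent.H.MP_1ffe94_lc.A

set_option autoImplicit false

namespace Pool.Agent.Results.MP_1ffe94_lc.InP

open Finset Pool.Agent.Lib.CX Pool.Agent.H.MP_1ffe94_lc

open Classical in
/-- `f` is a majority dominating function of `G` -/
def MDF {V : Type} [Fintype V] (G : SimpleGraph V) (f : V → ℤ) : Prop :=
  (∀ v, f v = 1 ∨ f v = -1) ∧ Fintype.card V ≤ 2 * #{v | 1 ≤ ∑ u with u = v ∨ G.Adj v u, f u}

/-- instances: a nonempty list of positive part sizes and a positive integer -/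
def Inst : Type := {a : List ℕ × ℕ // a.1 ≠ [] ∧ (∀ n ∈ a.1, 0 < n) ∧ 0 < a.2}

instance : Enc Inst := inferInstanceAs (Enc (Subtype _))

def Maj (a : Inst) : Prop :=
  ∃ f, MDF (SimpleGraph.completeMultipartiteGraph fun i => Fin (a.1.1.get i)) f ∧ ∑ v, f v ≤ (a.1.2 : ℤ)

theorem result : InP Maj ∧ (NPHard Maj → ∀ A : List Bool → Prop, InNP A → InP A) := by
  suffices h : InP Maj from ⟨h, fun H A hA => h.red (H A hA)⟩
  have hv : PT fun a : Inst => a.1 := PT.val PT.id
  have hr := run_pt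
  refine (InP.of_decide (A := fun a : Inst => 2 ≤ a.1.2 ∨ a.1.1.sum % 2 = 1 ∨
    ∃ p ∈ run a.1.1, 3 * a.1.1.length ≤ p.2 ∧ 2 * p.1 ≤ a.1.1.sum) (i := fun _ => inferInstance)
    (by fun_prop)).of_iff fun ⟨⟨L, k⟩, h1, h2, h3⟩ => ?_
  have e : Maj ⟨⟨L, k⟩, h1, h2, h3⟩ ↔ C L.get k := by
    rw [← graph_iff]
    refine exists_congr fun f => ?_
    simp only [MDF, SimpleGraph.comap_adj, SimpleGraph.top_adj, and_assoc]
    refine and_congr_right fun _ => and_comm.trans (and_congr_right fun _ => ?_)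
    congr!
  have hs : ∑ i, L.get i = L.sum := Fin.sum_univ_getElem L
  have : Nonempty (Fin L.length) := ⟨⟨0, List.length_pos_iff.2 h1⟩⟩
  have y := yes L.get (fun i => h2 _ (List.get_mem _ _)) k
  rw [hs] at y
  dsimp only at h3 ⊢
  rw [e]
  by_cases c1 : 2 ≤ k
  · exact iff_of_true (y (by omega)) (.inl c1)
  · by_cases c2 : L.sum % 2 = 1
    · exact iff_of_true (y (by omega)) (.inr (.inl c2))
    · obtain rfl : k = 1 := by omega
      simpa [c2] using run_iff L (by omega)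

end Pool.Agent.Results.MP_1ffe94_lc.InP
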